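import Pool.Agent.H33.EvilDefs

namespace Pool.Agent.Results.MP_df1cff_co.Q1

open Pool.Agent.H33.Evil Pool.Agent.H33.Evil.Game

def star2 : Game := mk 2 2 ![zero, Game.star] ![zero, Game.star]
def up : Game := mk 2 1 ![zero, Game.star] ![zero]
def dn : Game := mk 1 2 ![zero] ![zero, Game.star]
def gg : Game := mk 2 3 ![zero, star2] ![zero, dn, up]

structure V where
  a : ℕ
  b : ℕ
  c : ℕ
  d : ℕ
  e : ℕ

def V.plus (v w : V) : V := ⟨v.a + w.a, v.b + w.b, v.c + w.c, v.d + w.d, v.e + w.e⟩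

inductive Rep : Game → V → Prop
  | z : Rep zero ⟨0, 0, 0, 0, 0⟩
  | s : Rep star ⟨1, 0, 0, 0, 0⟩
  | t : Rep star2 ⟨0, 1, 0, 0, 0⟩
  | u : Rep up ⟨0, 0, 1, 0, 0⟩
  | d : Rep dn ⟨0, 0, 0, 1, 0⟩
  | g : Rep gg ⟨0, 0, 0, 0, 1⟩
  | add {G H v w} : Rep G v → Rep H w → Rep (add G H) (v.plus w)

def ok : Bool → Fin 9 → V → Prop
  | _, 0, v => 0 < v.a
  | _, 1, v => 0 < v.b
  | _, 2, v => 0 < v.b
  | _, 3, v => 0 < v.c
  | _, 4, v => 0 < v.d
  | _, 5, v => 0 < v.e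
  | true, 6, v => 0 < v.c
  | false, 6, v => 0 < v.d
  | _, 7, v => 0 < v.e
  | _, 8, v => 0 < v.e

def st : Bool → Fin 9 → V → V
  | _, 0, v => ⟨v.a - 1, v.b, v.c, v.d, v.e⟩
  | _, 1, v => ⟨v.a, v.b - 1, v.c, v.d, v.e⟩
  | _, 2, v => ⟨v.a + 1, v.b - 1, v.c, v.d, v.e⟩
  | _, 3, v => ⟨v.a, v.b, v.c - 1, v.d, v.e⟩
  | _, 4, v => ⟨v.a, v.b, v.c, v.d - 1, v.e⟩
  | _, 5, v => ⟨v.a, v.b, v.c, v.d, v.e - 1⟩
  | true, 6, v => ⟨v.a + 1, v.b, v.c - 1, v.d, v.e⟩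
  | false, 6, v => ⟨v.a + 1, v.b, v.c, v.d - 1, v.e⟩
  | true, 7, v => ⟨v.a, v.b + 1, v.c, v.d, v.e - 1⟩
  | false, 7, v => ⟨v.a, v.b, v.c, v.d + 1, v.e - 1⟩
  | true, 8, v => ⟨v.a, v.b + 1, v.c, v.d, v.e - 1⟩
  | false, 8, v => ⟨v.a, v.b, v.c + 1, v.d, v.e - 1⟩

def Mv (p : Bool) (v w : V) : Prop := ∃ i, ok p i v ∧ w = st p i v

theorem ex9 (P : Fin 9 → Prop) :
    (∃ i, P i) ↔ P 0 ∨ P 1 ∨ P 2 ∨ P 3 ∨ P 4 ∨ P 5 ∨ P 6 ∨ P 7 ∨ P 8 := by
  simp [Fin.exists_fin_succ]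

theorem opts_add (p : Bool) (G H x : Game) :
    x ∈ opts p (add G H) ↔ (∃ y ∈ opts p G, x = add y H) ∨ (∃ y ∈ opts p H, x = add G y) := by
  cases G with
  | mk m n L R =>
    cases H with
    | mk m' n' L' R' =>
      rw [Game.add]
      cases p <;> simp only [opts, List.ofFn_fin_append, List.mem_append, List.mem_ofFn,
        exists_exists_eq_and] <;> simp only [eq_comm]

theorem plus_comm (v w : V) : v.plus w = w.plus v := by
  simp [V.plus, add_comm]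

theorem st_plus {p : Bool} {i : Fin 9} {v : V} (w : V) (h : ok p i v) :
    ok p i (v.plus w) ∧ (st p i v).plus w = st p i (v.plus w) := by
  obtain ⟨a, b, c, d, e⟩ := v
  obtain ⟨a2, b2, c2, d2, e2⟩ := w
  cases p <;> fin_cases i <;> simp [ok, st, V.plus] at h ⊢ <;> omega

theorem ok_split {p : Bool} {i : Fin 9} {v w : V} (h : ok p i (v.plus w)) :
    ok p i v ∨ ok p i w := by
  obtain ⟨a, b, c, d, e⟩ := v
  obtain ⟨a2, b2, c2, d2, e2⟩ := w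
  cases p <;> fin_cases i <;> simp [ok, V.plus] at h ⊢ <;> omega

theorem mv_left {p : Bool} {v v' : V} (w : V) (h : Mv p v v') : Mv p (v.plus w) (v'.plus w) := by
  obtain ⟨i, h1, rfl⟩ := h
  exact ⟨i, st_plus w h1⟩

theorem mv_split {p : Bool} {v w x : V} (h : Mv p (v.plus w) x) :
    (∃ v', Mv p v v' ∧ x = v'.plus w) ∨ (∃ w', Mv p w w' ∧ x = v.plus w') := by
  obtain ⟨i, h1, rfl⟩ := h
  rcases ok_split h1 with h | h
  · exact Or.inl ⟨_, ⟨i, h, rfl⟩, (st_plus w h).2.symm⟩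
  · refine Or.inr ⟨_, ⟨i, h, rfl⟩, ?_⟩
    rw [plus_comm v w, plus_comm v]
    exact (st_plus v h).2.symm

theorem rep_opts {G : Game} {v : V} (h : Rep G v) (p : Bool) :
    (∀ x ∈ opts p G, ∃ w, Rep x w ∧ Mv p v w) ∧ (∀ w, Mv p v w → ∃ x ∈ opts p G, Rep x w) := by
  induction h with
  | z => cases p <;> simp [opts, zero, Mv, ex9, ok, st]
  | s => cases p <;> simp [opts, Game.star, Mv, ex9, ok, st] <;> exact Rep.z
  | t =>
    have := Rep.z; have := Rep.s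
    cases p <;> simp [opts, star2, Mv, ex9, ok, st, and_or_left, exists_or, or_imp, forall_and, *]
  | u =>
    have := Rep.z; have := Rep.s
    cases p <;> simp [opts, up, Mv, ex9, ok, st, and_or_left, exists_or, or_imp, forall_and, *]
  | d =>
    have := Rep.z; have := Rep.s
    cases p <;> simp [opts, dn, Mv, ex9, ok, st, and_or_left, exists_or, or_imp, forall_and, *]
  | g =>
    have := Rep.z; have := Rep.t; have := Rep.u; have := Rep.d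
    cases p <;> simp [opts, gg, Mv, ex9, ok, st, and_or_left, exists_or, or_imp, forall_and, *]
  | @add G H v w hG hH ihG ihH =>
    constructor
    · intro x hx
      rcases (opts_add p G H x).1 hx with ⟨y, hy, rfl⟩ | ⟨y, hy, rfl⟩
      · obtain ⟨v', h1, h2⟩ := ihG.1 y hy
        exact ⟨_, Rep.add h1 hH, mv_left w h2⟩
      · obtain ⟨w', h1, h2⟩ := ihH.1 y hy
        refine ⟨_, Rep.add hG h1, ?_⟩
        rw [plus_comm v w, plus_comm v w']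
        exact mv_left v h2
    · intro x hx
      rcases mv_split hx with ⟨v', h1, rfl⟩ | ⟨w', h1, rfl⟩
      · obtain ⟨y, hy, hr⟩ := ihG.2 v' h1
        exact ⟨add y H, (opts_add p G H _).2 (Or.inl ⟨y, hy, rfl⟩), Rep.add hr hH⟩
      · obtain ⟨y, hy, hr⟩ := ihH.2 w' h1
        exact ⟨add G y, (opts_add p G H _).2 (Or.inr ⟨y, hy, rfl⟩), Rep.add hG hr⟩

/-- Normal-play table; `r` is the parity of the number of stars. -/
def N : Bool → ℕ → ℕ → ℕ → ℕ → ℕ → Prop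
  | true, r, b, c, d, e =>
    (e = 0 ∧ r = 0 ∧ b % 2 = 0 ∧ (d + 1 ≤ c ∨ c + 1 = d)) ∨
    (e = 0 ∧ (r = 1 ∨ b % 2 = 1) ∧ d ≤ c) ∨
    (1 ≤ e ∧ d + e ≤ c + 1 - r ∧ (r = 0 ∨ d + e ≤ c))
  | false, r, b, c, d, e =>
    (e = 0 ∧ r = 0 ∧ b % 2 = 0 ∧ (c + 1 ≤ d ∨ d + 1 = c)) ∨
    (e = 0 ∧ (r = 1 ∨ b % 2 = 1) ∧ c ≤ d) ∨
    (e = 1 ∧ r = 0 ∧ b % 2 = 0 ∧ c ≤ d + 1) ∨
    (1 ≤ e ∧ c + 1 ≤ d + e + r)

def F (mis p : Bool) (v : V) : Prop :=
  if mis = true ∧ v.b = 0 ∧ v.e ≤ 1 then N p ((v.a + 1) % 2) v.b v.c v.d v.e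
  else N p (v.a % 2) v.b v.c v.d v.e

theorem F_false (p : Bool) (v : V) : F false p v ↔ N p (v.a % 2) v.b v.c v.d v.e := by
  simp [F]

theorem F_true (p : Bool) (v : V) : F true p v ↔
    ((v.b = 0 ∧ v.e ≤ 1) ∧ N p ((v.a + 1) % 2) v.b v.c v.d v.e) ∨
      (¬ (v.b = 0 ∧ v.e ≤ 1) ∧ N p (v.a % 2) v.b v.c v.d v.e) := by
  unfold F
  by_cases h : v.b = 0 ∧ v.e ≤ 1 <;> simp [h]

theorem noMv (p : Bool) (v : V) :
    (∀ w, ¬ Mv p v w) ↔ v.a = 0 ∧ v.b = 0 ∧ v.c = 0 ∧ v.d = 0 ∧ v.e = 0 := by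
  have : (∀ w, ¬ Mv p v w) ↔ ¬ ∃ i, ok p i v := by
    simp only [Mv, not_exists, not_and]
    exact ⟨fun h i hi => h _ i hi rfl, fun h w i hi => absurd hi (h i)⟩
  rw [this, ex9]
  cases p <;> simp only [ok] <;> omega

theorem ex_mv (p : Bool) (v : V) (P : V → Prop) :
    (∃ w, Mv p v w ∧ P w) ↔ ∃ i, ok p i v ∧ P (st p i v) := by
  constructor
  · rintro ⟨w, ⟨i, h, rfl⟩, h2⟩; exact ⟨i, h, h2⟩
  · rintro ⟨i, h, h2⟩; exact ⟨_, ⟨i, h, rfl⟩, h2⟩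

theorem par (a : ℕ) : a = 0 ∨ (∃ x, a = 2 * x + 1) ∨ ∃ x, a = 2 * x + 2 := by
  rcases Nat.eq_zero_or_pos a with h | h
  · exact Or.inl h
  · rcases Nat.mod_two_eq_zero_or_one a with h2 | h2
    · exact Or.inr (Or.inr ⟨a / 2 - 1, by omega⟩)
    · exact Or.inr (Or.inl ⟨a / 2, by omega⟩)

theorem cs (e : ℕ) : e = 0 ∨ e = 1 ∨ e = 2 ∨ ∃ x, e = x + 3 := by
  rcases (show e = 0 ∨ e = 1 ∨ e = 2 ∨ 3 ≤ e by omega) with h | h | h | h
  · simp [h]
  · simp [h]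
  · simp [h]
  · exact Or.inr (Or.inr (Or.inr ⟨e - 3, by omega⟩))

theorem rec_false (p : Bool) (v : V) : F false p v ↔ ∃ w, Mv p v w ∧ ¬ F false (!p) w := by
  obtain ⟨a, b, c, d, e⟩ := v
  rw [ex_mv, ex9]
  rcases par a with rfl | ⟨a, rfl⟩ | ⟨a, rfl⟩ <;>
  rcases par b with rfl | ⟨b, rfl⟩ | ⟨b, rfl⟩ <;>
  rcases cs e with rfl | rfl | rfl | ⟨e, rfl⟩ <;>
  cases p <;>
    simp [F_false, ok, st, N, Nat.add_mod] <;> omega

theorem rec_true (p : Bool) (v : V) : F true p v ↔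
    (v.a = 0 ∧ v.b = 0 ∧ v.c = 0 ∧ v.d = 0 ∧ v.e = 0) ∨ ∃ w, Mv p v w ∧ ¬ F true (!p) w := by
  obtain ⟨a, b, c, d, e⟩ := v
  rw [ex_mv, ex9]
  rcases par a with rfl | ⟨a, rfl⟩ | ⟨a, rfl⟩ <;>
  rcases (show b = 0 ∨ b = 1 ∨ (∃ x, b = 2 * x + 2) ∨ ∃ x, b = 2 * x + 3 by
    rcases par b with rfl | ⟨x, rfl⟩ | ⟨x, rfl⟩
    · simp
    · rcases x with _ | x
      · simp
      · exact Or.inr (Or.inr (Or.inr ⟨x, by ring⟩))
    · exact Or.inr (Or.inr (Or.inl ⟨x, rfl⟩))) with rfl | rfl | ⟨b, rfl⟩ | ⟨b, rfl⟩ <;>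
  rcases cs e with rfl | rfl | rfl | ⟨e, rfl⟩ <;>
  cases p <;>
    simp [F, ok, st, N, Nat.add_mod] <;> omega

theorem wins_iff (mis : Bool) : ∀ (n : ℕ) (G : Game) (v : V) (p : Bool), size G < n → Rep G v →
    (Wins mis p G ↔ F mis p v) := by
  intro n
  induction n with
  | zero => intro G v p h; omega
  | succ n ih =>
    intro G v p hn hG
    obtain ⟨h1, h2⟩ := rep_opts hG p
    have key : (∃ x, ∃ _h : x ∈ opts p G, ¬ Wins mis (!p) x) ↔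
        ∃ w, Mv p v w ∧ ¬ F mis (!p) w := by
      constructor
      · rintro ⟨x, hx, hw⟩
        obtain ⟨w, hr, hm⟩ := h1 x hx
        exact ⟨w, hm, fun hf => hw ((ih x w _ (by have := size_lt hx; omega) hr).2 hf)⟩
      · rintro ⟨w, hm, hf⟩
        obtain ⟨x, hx, hr⟩ := h2 w hm
        exact ⟨x, hx, fun hw => hf ((ih x w _ (by have := size_lt hx; omega) hr).1 hw)⟩
    have emp : opts p G = [] ↔ v.a = 0 ∧ v.b = 0 ∧ v.c = 0 ∧ v.d = 0 ∧ v.e = 0 := by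
      rw [← noMv p v, List.eq_nil_iff_forall_not_mem]
      constructor
      · intro h w hm
        obtain ⟨x, hx, _⟩ := h2 w hm
        exact h x hx
      · intro h x hx
        obtain ⟨w, _, hm⟩ := h1 x hx
        exact h w hm
    rw [Wins, key, emp]
    cases mis
    · rw [rec_false p v]; simp
    · rw [rec_true p v]; simp

theorem wins {G : Game} {v : V} (h : Rep G v) (mis p : Bool) : Wins mis p G ↔ F mis p v :=
  wins_iff mis _ G v p (Nat.lt_succ_self _) h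

theorem out_eq {m m' : Bool} {G H : Game} :
    outcome m G = outcome m' H ↔
      (Wins m true G ↔ Wins m' true H) ∧ (Wins m false G ↔ Wins m' false H) := by
  unfold outcome
  by_cases h1 : Wins m true G <;> by_cases h2 : Wins m false G <;>
    by_cases h3 : Wins m' true H <;> by_cases h4 : Wins m' false H <;> simp [*]

def A : Set Game := {G | ∃ v, Rep G v}

theorem sub_mem {G H : Game} (h : Sub H G) (hG : G ∈ A) : H ∈ A := by
  induction h with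
  | refl => exact hG
  | step hx _ ih =>
    obtain ⟨v, hv⟩ := ih hG
    obtain ⟨w, hw, _⟩ := (rep_opts hv _).1 _ hx
    exact ⟨w, hw⟩

theorem nil_iff {G : Game} {v : V} (hG : Rep G v) (p : Bool) :
    opts p G = [] ↔ v.a = 0 ∧ v.b = 0 ∧ v.c = 0 ∧ v.d = 0 ∧ v.e = 0 := by
  obtain ⟨h1, h2⟩ := rep_opts hG p
  rw [← noMv p v, List.eq_nil_iff_forall_not_mem]
  constructor
  · intro h w hm
    obtain ⟨x, hx, _⟩ := h2 w hm
    exact h x hx
  · intro h x hx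
    obtain ⟨w, _, hm⟩ := h1 x hx
    exact h w hm

theorem result : ∃ A : Set Game, Closed A ∧ (∀ G ∈ A, Dicotic G) ∧ Game.star ∈ A ∧
    EvilKernel A {G | G ∈ A ∧ oPlus G = oMinus G} ∧
    ∀ K : Set Game, EvilKernel A K → ¬ EvillyNormal A K := by
  refine ⟨A, ⟨?_, fun G hG H h => sub_mem h hG⟩, ?_, ⟨_, Rep.s⟩, ⟨fun G h => h.1, ?_⟩, ?_⟩
  · rintro G ⟨v, hv⟩ H ⟨w, hw⟩
    exact ⟨_, Rep.add hv hw⟩
  · intro G hG H h
    obtain ⟨v, hv⟩ := sub_mem h hG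
    rw [nil_iff hv, nil_iff hv]
  · rintro G ⟨v, hv⟩
    unfold twin
    split_ifs with h
    · exact ⟨h.2, h.2.symm⟩
    · have hv' := Rep.add hv Rep.s
      have hc : v.b = 0 ∧ v.e ≤ 1 := by
        by_contra hc
        apply h
        refine ⟨⟨v, hv⟩, ?_⟩
        unfold oPlus oMinus
        rw [out_eq]
        simp only [wins hv, F, hc]
        simp
      unfold oPlus oMinus
      rw [out_eq, out_eq]
      simp only [wins hv, wins hv', F, V.plus, add_zero, hc]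
      have : (v.a + 1 + 1) % 2 = v.a % 2 := by omega
      simp [this]
  · intro K hK hN
    have hg : gg ∉ K := by
      intro h
      have := (hK.2 gg ⟨_, Rep.g⟩).1
      unfold twin oPlus oMinus at this
      rw [if_pos h, out_eq] at this
      simp [wins Rep.g, F, N] at this
    have hu : up ∉ K := by
      intro h
      have := (hK.2 up ⟨_, Rep.u⟩).1
      unfold twin oPlus oMinus at this
      rw [if_pos h, out_eq] at this
      simp [wins Rep.u, F, N] at this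
    have h2 := Rep.add Rep.g Rep.g
    have h3 := Rep.add h2 Rep.u
    have h4 := Rep.add h3 Rep.s
    have n2 := (hN gg ⟨_, Rep.g⟩ gg ⟨_, Rep.g⟩).2 ⟨hg, hg⟩
    have n3 := (hN _ ⟨_, h2⟩ up ⟨_, Rep.u⟩).2 ⟨n2, hu⟩
    have := (hK.2 _ ⟨_, h3⟩).1
    unfold twin oPlus oMinus at this
    rw [if_neg n3, out_eq] at this
    simp [wins h3, wins h4, F, N, V.plus] at this

end Pool.Agent.Results.MP_df1cff_co.Q1
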